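import Pool.Agent.Helper28.MT.Goals3

/-!
# PROJECT MT3 (MP_bb782b_co): packet STEP3, one step of the selection
-/

set_option autoImplicit false

namespace Pool.Agent.Helper34.MT3

open Finset
open Pool.Agent.Helper55.Rota
open Pool.Agent.Helper28.MT
open Pool.Agent.Helper28.MT3

/-- The numbers of elements taken from the pools. -/
def up {α : Type} [Fintype α] [DecidableEq α] (f : α → ℕ) (T : ℕ → Finset α) (i l p : ℕ) : ℕ :=
  (T i ∩ pool l p f).card

/-- The numbers of elements taken from the top. -/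
def ut {α : Type} [Fintype α] [DecidableEq α] (s : ℕ) (f : α → ℕ) (T : ℕ → Finset α) (i : ℕ) :
    ℕ := (T i ∩ tp s f).card

theorem us_congr {u u' : ℕ → ℕ → ℕ → ℕ} {j : ℕ} (hu : ∀ i < j, ∀ l p, u i l p = u' i l p)
    (l p : ℕ) : us u l p j = us u' l p j := by
  unfold us
  exact sum_congr rfl fun i hi => hu i (mem_range.mp (mem_filter.mp hi).1) l p

theorem wp_congr {k s : ℕ} {u u' : ℕ → ℕ → ℕ → ℕ} {j : ℕ}
    (hu : ∀ i < j, ∀ l p, u i l p = u' i l p) (l p : ℕ) : wp k s u l p j = wp k s u' l p j := by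
  unfold wp
  rw [us_congr hu]

theorem wl_congr {k s : ℕ} {u u' : ℕ → ℕ → ℕ → ℕ} {j : ℕ}
    (hu : ∀ i < j, ∀ l p, u i l p = u' i l p) : wl k s u j = wl k s u' j := by
  funext r
  unfold wl
  exact sum_congr rfl fun l _ => by rw [wp_congr hu]

theorem pot3_congr {k s : ℕ} {u u' : ℕ → ℕ → ℕ → ℕ} {v v' : ℕ → ℕ} {j : ℕ}
    (hu : ∀ i < j, ∀ l p, u i l p = u' i l p) (hv : ∀ i < j, v i = v' i) :
    pot3 k s u v j = pot3 k s u' v' j := by
  unfold pot3
  have h1 : ∑ i ∈ range j, (v i : ℝ) = ∑ i ∈ range j, (v' i : ℝ) :=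
    sum_congr rfl fun i hi => by rw [hv i (mem_range.mp hi)]
  rw [h1]
  congr 1
  exact sum_congr rfl fun l _ => sum_congr rfl fun p _ => by rw [us_congr hu]

theorem wp_pos (k s : ℕ) (u : ℕ → ℕ → ℕ → ℕ) (l p j : ℕ) : 0 < wp k s u l p j := by
  unfold wp
  exact div_pos (Real.exp_pos _) (by positivity)

theorem wl_nonneg (k s : ℕ) (u : ℕ → ℕ → ℕ → ℕ) (j r : ℕ) : 0 ≤ wl k s u j r := by
  unfold wl
  refine sum_nonneg fun l _ => ?_
  split_ifs
  · exact (wp_pos _ _ _ _ _ _).le
  · exact le_rfl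

theorem add_two_div_lt (j : ℕ) {l : ℕ} (hl : 1 ≤ l) : (j + 2) / 2 ^ l < j / 2 ^ l + 2 := by
  have h1 : 2 ≤ 2 ^ l := by
    calc 2 = 2 ^ 1 := by norm_num
      _ ≤ 2 ^ l := Nat.pow_le_pow_right (by norm_num) hl
  have h2 : (j + 2) / 2 ^ l ≤ (j + 2 ^ l) / 2 ^ l := Nat.div_le_div_right (by omega)
  rw [Nat.add_div_right _ (by positivity)] at h2
  omega

/-- The index condition for the level `0`. -/
theorem half_le {i j l : ℕ} (hl : 1 ≤ l) (h : (j + 2) / 2 ^ l = i / 2 ^ l + 2) :
    i / 2 ^ 1 + 2 ≤ (j + 2) / 2 := by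
  obtain ⟨m, rfl⟩ := Nat.exists_eq_add_of_le hl
  rw [pow_add, ← Nat.div_div_eq_div_mul, ← Nat.div_div_eq_div_mul, pow_one] at h
  rw [pow_one]
  by_contra hc
  have h1 : (j + 2) / 2 ≤ i / 2 + 1 := by omega
  have h2 : (j + 2) / 2 / 2 ^ m ≤ (i / 2 + 1) / 2 ^ m := Nat.div_le_div_right h1
  have h3 : (i / 2 + 1) / 2 ^ m ≤ (i / 2 + 2 ^ m) / 2 ^ m :=
    Nat.div_le_div_right (Nat.add_le_add_left Nat.one_le_two_pow _)
  rw [Nat.add_div_right _ (by positivity)] at h3
  omega

/-- What the sets with numbers `i < j` take from a pool. -/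
theorem card_inter_le {α : Type} [Fintype α] [DecidableEq α] (f : α → ℕ) (T : ℕ → Finset α)
    (j l p l' p' : ℕ) (h : ∀ i < j, ∀ x ∈ T i, f x / 2 ^ l' = p' →
      i / 2 ^ l + 2 ≤ p ∧ f x / 2 ^ l = p) :
    ((range j).biUnion T ∩ pool l' p' f).card ≤ us (up f T) l p j := by
  have hsub : (range j).biUnion T ∩ pool l' p' f ⊆
      ((range j).filter (fun i => i / 2 ^ l + 2 ≤ p)).biUnion (fun i => T i ∩ pool l p f) := by
    intro x hx
    rw [mem_inter, mem_biUnion] at hx
    obtain ⟨⟨i, hi, hxi⟩, hxr⟩ := hx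
    have h1 : f x / 2 ^ l' = p' := (mem_filter.mp hxr).2
    obtain ⟨h2, h3⟩ := h i (mem_range.mp hi) x hxi h1
    rw [mem_biUnion]
    exact ⟨i, mem_filter.mpr ⟨hi, h2⟩, mem_inter.mpr ⟨hxi, mem_filter.mpr ⟨mem_univ _, h3⟩⟩⟩
  exact (card_le_card hsub).trans card_biUnion_le

/-- The cost of the new set in terms of the pools. -/
theorem cost_eq {α : Type} [Fintype α] [DecidableEq α] (s : ℕ) (f : α → ℕ) (Tj : Finset α)
    (F : ℕ → ℕ → ℝ) :
    ∑ x ∈ Tj, (if 2 ^ (s + 2) ≤ f x then (64 : ℝ) else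
      ∑ l ∈ Icc 1 s, F l (f x / 2 ^ l)) =
    ∑ l ∈ Icc 1 s, ∑ p ∈ range (2 ^ (s + 2 - l)), F l p * (Tj ∩ pool l p f).card +
      64 * (Tj ∩ tp s f).card := by
  rw [sum_ite, add_comm]
  congr 1
  · rw [sum_comm]
    refine sum_congr rfl fun l hl => ?_
    obtain ⟨hl1, hl2⟩ := mem_Icc.mp hl
    have hpow : 2 ^ (s + 2 - l) * 2 ^ l = 2 ^ (s + 2) := by
      rw [← pow_add]
      congr 1
      omega
    have h1 : ∀ x ∈ Tj.filter (fun x => ¬ 2 ^ (s + 2) ≤ f x),
        f x / 2 ^ l ∈ range (2 ^ (s + 2 - l)) := by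
      intro x hx
      have h2 := (mem_filter.mp hx).2
      rw [mem_range]
      refine Nat.div_lt_of_lt_mul ?_
      rw [mul_comm, hpow]
      omega
    rw [← sum_fiberwise_of_maps_to h1]
    refine sum_congr rfl fun p hp => ?_
    have h2 : (Tj.filter (fun x => ¬ 2 ^ (s + 2) ≤ f x)).filter (fun x => f x / 2 ^ l = p) =
        Tj ∩ pool l p f := by
      ext x
      simp only [mem_filter, mem_inter, pool, mem_univ, true_and]
      constructor
      · rintro ⟨⟨h3, -⟩, h4⟩
        exact ⟨h3, h4⟩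
      · rintro ⟨h3, h4⟩
        refine ⟨⟨h3, ?_⟩, h4⟩
        have h5 : p < 2 ^ (s + 2 - l) := mem_range.mp hp
        rw [← h4, Nat.div_lt_iff_lt_mul (by positivity), hpow] at h5
        omega
    rw [sum_congr rfl (g := fun _ => F l p) (fun x hx => by
      rw [(mem_filter.mp hx).2]), sum_const, nsmul_eq_mul, h2, mul_comm]
  · rw [sum_const, nsmul_eq_mul, mul_comm]
    congr 2
    congr 1
    ext x
    simp only [mem_filter, mem_inter, tp, mem_univ, true_and]

theorem mt3_step3 : G_STEPW3 → G_POTS3 → G_POTB3 → G_STEP3 := by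
  intro hSTEPW hPOTS hPOTB α _ _ R n k h s b t a f T j hk hn hnk hkh hhk hs hsh hh hbig hj hset
    hlab hG
  obtain ⟨h1, h2, h3⟩ := hG
  obtain ⟨-, hB⟩ := hPOTB k s (up f T) (ut s f T) j hs hbig hj.le
  obtain ⟨hB1, hB2, hB3⟩ := hB h3
  have hlt : ∀ l ≤ s, j / 2 ^ l + 2 < 2 ^ (s + 2 - l) := by
    intro l hl
    have e1 : 2 ^ (s + 2 - l) = 4 * 2 ^ (s - l) := by
      rw [show s + 2 - l = 2 + (s - l) by omega, pow_add]
      norm_num
    have e2 : j / 2 ^ l < 2 ^ (s - l) := by
      refine Nat.div_lt_of_lt_mul ?_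
      rw [← pow_add, show l + (s - l) = s by omega]
      exact hj
    have e3 : 1 ≤ 2 ^ (s - l) := Nat.one_le_two_pow
    omega
  have hA : ∀ l ≤ s, ((range j).biUnion T ∩ pool l (j / 2 ^ l + 2) f).card ≤
      16 * (s - l + 1) * k := by
    intro l hl
    rcases Nat.eq_zero_or_pos l with rfl | hl0
    · have h4 : ((range j).biUnion T ∩ pool 0 (j / 2 ^ 0 + 2) f).card ≤
          us (up f T) 1 ((j + 2) / 2) j := by
        refine card_inter_le f T j 1 ((j + 2) / 2) 0 _ ?_
        intro i hi x hx hfx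
        rw [pow_zero, Nat.div_one, Nat.div_one] at hfx
        have h5 := (h1 i hi).1 hx
        rw [alw3, mem_filter] at h5
        have h6 : f x < 2 ^ (s + 2) := by
          have := hlt 0 (Nat.zero_le _)
          rw [pow_zero, Nat.div_one, Nat.sub_zero] at this
          omega
        rcases h5.2 with h7 | ⟨l, -, h7⟩
        · omega
        · rw [hfx] at h7 ⊢
          refine ⟨?_, by rw [pow_one]⟩
          rcases Nat.eq_zero_or_pos l with rfl | hl0
          · rw [pow_zero, Nat.div_one, Nat.div_one] at h7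
            omega
          · exact half_le hl0 h7
      refine h4.trans ((hB2 1 le_rfl hs _ ?_).trans ?_)
      · have h5 := hlt 1 hs
        have h6 : (j + 2) / 2 = j / 2 ^ 1 + 1 := by
          rw [pow_one]
          omega
        omega
      · refine Nat.mul_le_mul_right _ (Nat.mul_le_mul_left _ ?_)
        omega
    · refine (card_inter_le f T j l (j / 2 ^ l + 2) l _ ?_).trans
        (hB2 l hl0 hl _ (hlt l hl))
      intro i hi x _ hfx
      exact ⟨Nat.add_le_add_right (Nat.div_le_div_right hi.le) 2, hfx⟩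
  have hBt : 8 * ((range j).biUnion T ∩ tp s f).card ≤ k := by
    have h4 : ((range j).biUnion T ∩ tp s f).card ≤ ∑ i ∈ range j, ut s f T i := by
      have h5 : (range j).biUnion T ∩ tp s f ⊆ (range j).biUnion (fun i => T i ∩ tp s f) := by
        intro x hx
        rw [mem_inter, mem_biUnion] at hx
        obtain ⟨⟨i, hi, hxi⟩, hxr⟩ := hx
        rw [mem_biUnion]
        exact ⟨i, hi, mem_inter.mpr ⟨hxi, hxr⟩⟩
      exact (card_le_card h5).trans card_biUnion_le
    omega
  have hw0 : wl k s (up f T) j (j + 2) = 0 := by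
    unfold wl
    refine sum_eq_zero fun l hl => ?_
    rw [if_neg]
    have := add_two_div_lt j (mem_Icc.mp hl).1
    omega
  have hwp : ∀ l, 1 ≤ l → l ≤ s → ∀ r, r / 2 ^ l = j / 2 ^ l + 2 →
      0 < wl k s (up f T) j r := by
    intro l hl1 hl2 r hr
    unfold wl
    refine lt_of_lt_of_le (wp_pos k s (up f T) l (r / 2 ^ l) j) ?_
    have h4 := single_le_sum (f := fun l => if j / 2 ^ l + 2 ≤ r / 2 ^ l then
      wp k s (up f T) l (r / 2 ^ l) j else 0) (s := Icc 1 s) (fun l' _ => by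
        show 0 ≤ if j / 2 ^ l' + 2 ≤ r / 2 ^ l' then wp k s (up f T) l' (r / 2 ^ l') j else 0
        split_ifs
        · exact (wp_pos _ _ _ _ _ _).le
        · exact le_rfl) (mem_Icc.mpr ⟨hl1, hl2⟩)
    beta_reduce at h4
    rwa [if_pos hr.ge] at h4
  obtain ⟨Tj, hT1, hT2, hT3, hT4⟩ := hSTEPW α R n k h s b t a f j ((range j).biUnion T)
    (wl k s (up f T) j) hk hn hnk hkh hhk hs hsh hh hj hset hlab hA hBt
    (fun r => wl_nonneg _ _ _ _ _) hw0 hwp (hB3 hj)
  have hcard : Tj.card = n := by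
    have h4 := card_eq_sum_card_fiberwise (s := Tj) (t := univ) (f := b)
      (fun x _ => mem_coe.mpr (mem_univ _))
    rw [h4, sum_congr rfl (fun a _ => hT2 a)]
    simp
  have hupd : ∀ i < j, Function.update T j Tj i = T i := fun i hi =>
    Function.update_of_ne (by omega) _ _
  have hupj : Function.update T j Tj j = Tj := Function.update_self _ _ _
  have hu : ∀ i < j, ∀ l p, up f (Function.update T j Tj) i l p = up f T i l p := by
    intro i hi l p
    unfold up
    rw [hupd i hi]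
  have hv : ∀ i < j, ut s f (Function.update T j Tj) i = ut s f T i := by
    intro i hi
    unfold ut
    rw [hupd i hi]
  have hdis : ∀ i < j, Disjoint Tj (T i) := by
    intro i hi
    rw [Finset.disjoint_left]
    intro x hx hxi
    have h4 := hT1 hx
    rw [mem_sdiff] at h4
    exact h4.2 (mem_biUnion.mpr ⟨i, mem_range.mpr hi, hxi⟩)
  refine ⟨Function.update T j Tj, ?_, ?_, ?_⟩
  · intro i hi
    rcases Nat.lt_succ_iff_lt_or_eq.mp hi with hi | hi
    · rw [hupd i hi]
      exact h1 i hi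
    · subst hi
      rw [hupj]
      exact ⟨fun x hx => (mem_sdiff.mp (hT1 hx)).1, hT2, hT3⟩
  · intro i hi i' hi' hne
    rcases Nat.lt_succ_iff_lt_or_eq.mp hi with hi | hi
    · rcases Nat.lt_succ_iff_lt_or_eq.mp hi' with hi' | hi'
      · rw [hupd i hi, hupd i' hi']
        exact h2 i hi i' hi' hne
      · subst hi'
        rw [hupd i hi, hupj]
        exact (hdis i hi).symm
    · rcases Nat.lt_succ_iff_lt_or_eq.mp hi' with hi' | hi'
      · subst hi
        rw [hupd i' hi', hupj]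
        exact hdis i' hi'
      · omega
  · have h4 : pot3 k s (up f (Function.update T j Tj)) (ut s f (Function.update T j Tj)) (j + 1) ≤
        pot3 k s (up f (Function.update T j Tj)) (ut s f (Function.update T j Tj)) j := by
      refine hPOTS k s _ _ j (by omega) hs hj ?_ ?_
      · intro l p
        unfold up
        rw [hupj]
        exact ((card_le_card inter_subset_left).trans hcard.le).trans hnk
      · rw [wl_congr hu]
        refine le_trans (le_of_eq ?_) hT4
        have h5 := cost_eq s f Tj (fun l p => if j / 2 ^ l + 2 ≤ p then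
          wp k s (up f T) l p j else 0)
        have h6 : ∑ x ∈ Tj, (if 2 ^ (s + 2) ≤ f x then (64 : ℝ) else wl k s (up f T) j (f x)) =
            ∑ x ∈ Tj, (if 2 ^ (s + 2) ≤ f x then (64 : ℝ) else
              ∑ l ∈ Icc 1 s, (fun l p => if j / 2 ^ l + 2 ≤ p then
                wp k s (up f T) l p j else 0) l (f x / 2 ^ l)) := rfl
        rw [h6, h5]
        have h7 : ut s f (Function.update T j Tj) j = (Tj ∩ tp s f).card := by
          unfold ut
          rw [hupj]
        rw [h7]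
        congr 1
        refine sum_congr rfl fun l _ => sum_congr rfl fun p _ => ?_
        rw [wp_congr hu]
        have h8 : up f (Function.update T j Tj) j l p = (Tj ∩ pool l p f).card := by
          unfold up
          rw [hupj]
        rw [h8]
        show _ = (if j / 2 ^ l + 2 ≤ p then wp k s (up f T) l p j else 0) *
          ((Tj ∩ pool l p f).card : ℝ)
        split_ifs
        · rfl
        · rw [zero_mul]
    rw [pot3_congr hu hv] at h4
    exact h4.trans h3

end Pool.Agent.Helper34.MT3
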